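import Mathlib
import Pool.Agent.N119.PS.Stm

set_option autoImplicit false

/-!
# The counting current of a periodic word

The axis of the element `p.g` of a periodic word `p` is the bi-infinite line with the vertices
`V p j`, `j : ℤ`. The points of `Ends p.g ∩ U 1` are the translates `(V p j)⁻¹ • q₀` of the pair of
its end points, and their flips.
-/

namespace Pool.Agent.N697.PSC.ETA

open Pool.Agent.H472R3 Pool.Agent.H67R3.FSR Pool.Agent.H67R4.SR Pool.Agent.N119.PS
open MeasureTheory Topology Filter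
open scoped ENNReal NNReal

variable {N : ℕ} (p : PerWord N)

/-- The letters of the bi-infinite periodic word. -/
def C (j : ℤ) : Lt N := p.c (j % (p.m : ℤ)).toNat

/-- The vertices of the axis. -/
def V (j : ℤ) : FreeGroup (Fin N) := p.g ^ (j / (p.m : ℤ)) * p.el 0 (j % (p.m : ℤ)).toNat

theorem mpos : (0 : ℤ) < (p.m : ℤ) := by exact_mod_cast p.pos

theorem c_mod (k : ℕ) : p.c (k % p.m) = p.c k :=
  Function.Periodic.map_mod_nat (f := p.c) p.per k

theorem C_nat (k : ℕ) : C p (k : ℤ) = p.c k := by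
  unfold C
  rw [← c_mod p k]
  congr 1

theorem C_add_mul (j k : ℤ) : C p (j + k * p.m) = C p j := by
  unfold C
  rw [Int.add_mul_emod_self_right]

theorem el_zero (i : ℕ) : p.el i 0 = 1 := rfl

theorem el_succ (i n : ℕ) : p.el i (n + 1) = p.el i n * lt (p.c (i + n)) := by
  unfold PerWord.el PerWord.wd
  rw [List.range_succ, List.map_append, ← FreeGroup.mul_mk]
  rfl

/-- Every integer is `r + k m` with a natural number `r < m`. -/
theorem exists_rem (j : ℤ) : ∃ (r : ℕ) (k : ℤ), r < p.m ∧ j = r + k * p.m := by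
  refine ⟨(j % (p.m : ℤ)).toNat, j / (p.m : ℤ), ?_, ?_⟩
  · have h1 := Int.emod_lt_of_pos j (mpos p)
    have h2 := Int.emod_nonneg j (mpos p).ne'
    omega
  · have h2 := Int.emod_nonneg j (mpos p).ne'
    rw [Int.toNat_of_nonneg h2]
    have := Int.emod_add_mul_ediv j (p.m : ℤ)
    linarith [mul_comm (p.m : ℤ) (j / (p.m : ℤ))]

theorem V_nat {r : ℕ} (hr : r < p.m) (k : ℤ) : V p (r + k * p.m) = p.g ^ k * p.el 0 r := by
  have h1 : ((r : ℤ) + k * p.m) % (p.m : ℤ) = r := by
    rw [Int.add_mul_emod_self_right]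
    exact Int.emod_eq_of_lt (by positivity) (by exact_mod_cast hr)
  have h2 : ((r : ℤ) + k * p.m) / (p.m : ℤ) = k := by
    rw [Int.add_mul_ediv_right _ _ (mpos p).ne',
      Int.ediv_eq_zero_of_lt (by positivity) (by exact_mod_cast hr), zero_add]
  unfold V
  rw [h1, h2, Int.toNat_natCast]

theorem V_add_mul (j k : ℤ) : V p (j + k * p.m) = p.g ^ k * V p j := by
  obtain ⟨r, l, hr, rfl⟩ := exists_rem p j
  rw [show (r : ℤ) + l * p.m + k * p.m = r + (l + k) * p.m by ring, V_nat p hr, V_nat p hr,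
    ← mul_assoc, ← zpow_add, add_comm l k]

theorem V_zero : V p 0 = 1 := by
  have := V_nat p p.pos 0
  simpa [el_zero] using this

theorem V_mul (k : ℤ) : V p (k * p.m) = p.g ^ k := by
  have := V_add_mul p 0 k
  rwa [zero_add, V_zero, mul_one] at this

theorem V_succ (j : ℤ) : V p (j + 1) = V p j * lt (C p j) := by
  obtain ⟨r, l, hr, rfl⟩ := exists_rem p j
  rw [C_add_mul, C_nat, V_nat p hr]
  rcases Nat.lt_or_ge (r + 1) p.m with h | h
  · rw [show (r : ℤ) + l * p.m + 1 = ((r + 1 : ℕ) : ℤ) + l * p.m by push_cast; ring,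
      V_nat p h, el_succ, zero_add, mul_assoc]
  · have hm : p.m = r + 1 := by omega
    have e : (r : ℤ) + l * p.m + 1 = (l + 1) * p.m := by
      rw [hm]; push_cast; ring
    rw [e, V_mul, zpow_add, zpow_one, mul_assoc]
    congr 1
    change p.el 0 p.m = _
    rw [hm, el_succ, zero_add]

theorem C_red (j : ℤ) : C p (j + 1) ≠ inv' (C p j) := by
  obtain ⟨r, l, hr, rfl⟩ := exists_rem p j
  rw [show (r : ℤ) + l * p.m + 1 = ((r + 1 : ℕ) : ℤ) + l * p.m by push_cast; ring,
    C_add_mul, C_add_mul, C_nat, C_nat]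
  exact p.red r

theorem C_red' (j : ℤ) : C p j ≠ inv' (C p (j - 1)) := by
  have := C_red p (j - 1)
  rwa [sub_add_cancel] at this

theorem V_pred (j : ℤ) : V p (j - 1) = V p j * lt (inv' (C p (j - 1))) := by
  have := V_succ p (j - 1)
  rw [sub_add_cancel] at this
  rw [this, lt_inv', mul_inv_cancel_right]

theorem V_el (i n : ℕ) : V p ((i : ℤ) + n) = V p i * p.el i n := by
  induction n with
  | zero => simp [el_zero]
  | succ n ih =>
    rw [show ((i : ℤ) + ((n + 1 : ℕ) : ℤ)) = (i : ℤ) + n + 1 by push_cast; ring, V_succ, ih,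
      el_succ, mul_assoc]
    congr 2
    have : ((i : ℤ) + n) = ((i + n : ℕ) : ℤ) := by push_cast; ring
    rw [this, C_nat]

/-- A reduced path which starts at the axis either ends at the axis or leaves it. -/
theorem walk_aux : ∀ (l : List (Lt N)) (j : ℤ), FreeGroup.IsReduced l →
    (∃ i, V p j * FreeGroup.mk l = V p i) ∨ (∃ i a l', V p j * FreeGroup.mk l =
      V p i * FreeGroup.mk (a :: l') ∧ FreeGroup.IsReduced (a :: l') ∧ C p i ≠ a ∧
        inv' (C p (i - 1)) ≠ a)
  | [], j, _ => Or.inl ⟨j, mul_one _⟩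
  | a :: l, j, hr => by
    by_cases h1 : C p j = a
    · have := walk_aux l (j + 1) hr.tail
      rwa [V_succ, mul_assoc, h1, ← mk_cons'] at this
    · by_cases h2 : inv' (C p (j - 1)) = a
      · have := walk_aux l (j - 1) hr.tail
        rwa [V_pred, mul_assoc, h2, ← mk_cons'] at this
      · exact Or.inr ⟨j, a, l, rfl, hr, h1, h2⟩

theorem walk (v : FreeGroup (Fin N)) :
    (∃ i, v = V p i) ∨ (∃ i a l', v = V p i * FreeGroup.mk (a :: l') ∧
      FreeGroup.IsReduced (a :: l') ∧ C p i ≠ a ∧ inv' (C p (i - 1)) ≠ a) := by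
  have := walk_aux p v.toWord 0 FreeGroup.isReduced_toWord
  rwa [V_zero, one_mul, FreeGroup.mk_toWord] at this

theorem eq_of_axis {ξ ζ : Bd N} (h : ∀ j, ξ.1 (V p j) = ζ.1 (V p j))
    (h' : ∀ j, ξ.1 (V p j) = C p j ∨ ξ.1 (V p j) = inv' (C p (j - 1))) : ξ = ζ := by
  apply Subtype.ext
  funext v
  rcases walk p v with ⟨i, rfl⟩ | ⟨i, a, l, rfl, hr, h1, h2⟩
  · exact h i
  · have h3 : ξ.1 (V p i) ≠ a := by
      rcases h' i with h4 | h4
      · rw [h4]; exact h1
      · rw [h4]; exact h2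
    rw [follow ξ l a _ hr h3, follow ζ l a _ hr (by rw [← h i]; exact h3)]

/-- The two kinds of fixed points of `p.g`. -/
theorem dich {ξ : Bd N} (hξ : p.g • ξ = ξ) :
    (∀ j, ξ.1 (V p j) = C p j) ∨ (∀ j, ξ.1 (V p j) = inv' (C p (j - 1))) := by
  by_cases h : ∀ j, ξ.1 (V p j) = C p j
  · exact Or.inl h
  right
  push Not at h
  obtain ⟨j0, hj0⟩ := h
  have hA : ∀ n : ℕ, ξ.1 (V p (j0 + n)) ≠ C p (j0 + n) := by
    intro n
    induction n with
    | zero => simpa using hj0
    | succ n ih =>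
      have h1 := (ξ.2 (V p (j0 + n)) (C p (j0 + n))).mpr ih
      rw [← V_succ] at h1
      rw [show j0 + ((n + 1 : ℕ) : ℤ) = j0 + n + 1 by push_cast; ring, h1]
      exact (C_red p _).symm
  have hB : ∀ j, ξ.1 (V p j) ≠ C p j := by
    intro j
    have h1 : ξ.1 (V p (j + ((j0 - j).toNat : ℤ) * p.m)) = ξ.1 (V p j) := by
      rw [V_add_mul, zpow_natCast, fixed_pow hξ]
    have h2 : j0 ≤ j + ((j0 - j).toNat : ℤ) * p.m := by
      have h3 : j0 - j ≤ ((j0 - j).toNat : ℤ) := Int.self_le_toNat _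
      have h4 : (0 : ℤ) ≤ ((j0 - j).toNat : ℤ) := by positivity
      have h5 := mpos p
      nlinarith
    obtain ⟨n, hn⟩ := Int.eq_ofNat_of_zero_le (sub_nonneg.mpr h2)
    have h6 := hA n
    rw [show j0 + (n : ℤ) = j + ((j0 - j).toNat : ℤ) * p.m by rw [← hn]; ring, h1,
      C_add_mul] at h6
    exact h6
  intro j
  have h1 := (ξ.2 (V p (j - 1)) (C p (j - 1))).mpr (hB (j - 1))
  rwa [← V_succ, sub_add_cancel] at h1

/-- The pair of end points of the axis. -/
def IsAx (q : Bd2 N) : Prop := p.g • q = q ∧ (∀ j, q.1.2.1 (V p j) = C p j) ∧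
  ∀ j, q.1.1.1 (V p j) = inv' (C p (j - 1))

theorem wd_add (i a b : ℕ) : p.wd i (a + b) = p.wd i a ++ p.wd (i + a) b := by
  unfold PerWord.wd
  rw [List.range_add, List.map_append, List.map_map]
  congr 1
  apply List.map_congr_left
  intro t _
  simp [add_assoc]

theorem wd_per (b : ℕ) : p.wd p.m b = p.wd 0 b := by
  unfold PerWord.wd
  apply List.map_congr_left
  intro t _
  rw [add_comm, zero_add, p.per]

theorem exists_ax (hred : ∀ i n, FreeGroup.IsReduced (p.wd i n)) : ∃ q : Bd2 N, IsAx p q := by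
  have hLL : FreeGroup.IsReduced (p.wd 0 p.m ++ p.wd 0 p.m) := by
    have := hred 0 (p.m + p.m)
    rwa [wd_add, zero_add, wd_per] at this
  obtain ⟨k, hk⟩ : ∃ k, p.m = k + 1 := ⟨p.m - 1, by have := p.pos; omega⟩
  have hL1 : p.wd 0 p.m = [] ++ p.c 0 :: p.wd 1 k := by
    rw [hk, add_comm, wd_add]
    rfl
  have hL2 : p.wd 0 p.m = p.wd 0 k ++ [p.c k] := by
    rw [hk, wd_add, zero_add]
    rfl
  have hne : p.wd 0 p.m ≠ [] := by rw [hL1]; simp
  obtain ⟨ζ, hζ⟩ := conv_pow hne hLL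
  have hinv : FreeGroup.IsReduced (FreeGroup.invRev (p.wd 0 p.m) ++
      FreeGroup.invRev (p.wd 0 p.m)) := by
    rw [← invRev_append]
    exact invRev_red hLL
  have hI : FreeGroup.invRev (p.wd 0 p.m) = [] ++ inv' (p.c k) :: FreeGroup.invRev (p.wd 0 k) := by
    rw [hL2, invRev_append]
    simp [FreeGroup.invRev, inv']
  have hne' : FreeGroup.invRev (p.wd 0 p.m) ≠ [] := by rw [hI]; simp
  obtain ⟨ξ, hξ⟩ := conv_pow hne' hinv
  have a1 : ζ.1 1 = C p 0 := by
    have := conv_along hLL hL1 hζ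
    rw [show (0 : ℤ) = ((0 : ℕ) : ℤ) by rfl, C_nat]
    exact this
  have a2 : ξ.1 1 = inv' (C p (-1)) := by
    have := conv_along hinv hI hξ
    have e : C p (-1) = p.c k := by
      have h1 := C_add_mul p (-1) 1
      rw [← h1, hk, ← C_nat]
      congr 1
      push_cast
      ring
    rw [e]
    exact this
  have f1 : p.g • ζ = ζ := conv_fixed hζ
  have f2 : p.g • ξ = ξ := by
    have := conv_fixed hξ
    rw [← FreeGroup.inv_mk, inv_smul_eq_iff] at this
    exact this.symm
  have hd : C p 0 ≠ inv' (C p (-1)) := by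
    have := C_red p (-1)
    simpa using this
  have b1 : ∀ j, ζ.1 (V p j) = C p j := by
    rcases dich p f1 with h | h
    · exact h
    · exfalso
      have := h 0
      rw [V_zero, a1] at this
      exact hd (by simpa using this)
  have b2 : ∀ j, ξ.1 (V p j) = inv' (C p (j - 1)) := by
    rcases dich p f2 with h | h
    · exfalso
      have := h 0
      rw [V_zero, a2] at this
      exact hd this.symm
    · exact h
  have hne2 : ξ ≠ ζ := by
    intro he
    rw [he, a1] at a2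
    exact hd a2
  exact ⟨⟨(ξ, ζ), hne2⟩, Subtype.ext (Prod.ext f2 f1), b1, b2⟩

variable {p} {q : Bd2 N} (hq : IsAx p q)

include hq

theorem fixed_eq {r : Bd2 N} (hr : p.g • r = r) : r = q ∨ r = flip2 q := by
  have key : ∀ ξ : Bd N, p.g • ξ = ξ → ξ = q.1.1 ∨ ξ = q.1.2 := by
    intro ξ hξ
    rcases dich p hξ with h | h
    · right
      exact eq_of_axis p (fun j => by rw [h j, hq.2.1 j]) fun j => Or.inl (h j)
    · left
      exact eq_of_axis p (fun j => by rw [h j, hq.2.2 j]) fun j => Or.inr (h j)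
  have g1 : p.g • r.1.1 = r.1.1 := by rw [← smul_fst, hr]
  have g2 : p.g • r.1.2 = r.1.2 := by rw [← smul_snd, hr]
  rcases key _ g1 with k1 | k1 <;> rcases key _ g2 with k2 | k2
  · exact absurd (k1.trans k2.symm) r.2
  · left; exact Subtype.ext (Prod.ext k1 k2)
  · right; exact Subtype.ext (Prod.ext k1 k2)
  · exact absurd (k1.trans k2.symm) r.2

theorem mem_U_iff (v : FreeGroup (Fin N)) : q ∈ U v ↔ ∃ j, v = V p j := by
  constructor
  · intro h
    rcases walk p v with ⟨i, rfl⟩ | ⟨i, a, l, rfl, hr, h1, h2⟩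
    · exact ⟨i, rfl⟩
    · exfalso
      apply h
      rw [follow q.1.1 l a _ hr (by rw [hq.2.2 i]; exact h2),
        follow q.1.2 l a _ hr (by rw [hq.2.1 i]; exact h1)]
  · rintro ⟨j, rfl⟩
    rw [mem_U, hq.2.1 j, hq.2.2 j]
    exact (C_red' p j).symm

theorem ray_fwd (j : ℤ) (n : ℕ) : ray ((V p j)⁻¹ • q).1.2 n = (V p j)⁻¹ * V p (j + n) := by
  induction n with
  | zero => simp [ray]
  | succ n ih =>
    have e : ((V p j)⁻¹ • q).1.2.1 ((V p j)⁻¹ * V p (j + n)) = C p (j + n) := by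
      rw [smul_snd, Bd.smul_apply, inv_inv, mul_inv_cancel_left, hq.2.1]
    rw [ray, ih, e, mul_assoc, ← V_succ]
    congr 2
    push_cast
    ring

theorem ray_bwd (j : ℤ) (n : ℕ) : ray ((V p j)⁻¹ • q).1.1 n = (V p j)⁻¹ * V p (j - n) := by
  induction n with
  | zero => simp [ray]
  | succ n ih =>
    have e : ((V p j)⁻¹ • q).1.1.1 ((V p j)⁻¹ * V p (j - n)) = inv' (C p (j - n - 1)) := by
      rw [smul_fst, Bd.smul_apply, inv_inv, mul_inv_cancel_left, hq.2.2]
    rw [ray, ih, e, mul_assoc, ← V_pred]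
    congr 2
    push_cast
    ring

theorem val_fwd (j : ℤ) (n : ℕ) :
    ((V p j)⁻¹ • q).1.2.1 (ray ((V p j)⁻¹ • q).1.2 n) = C p (j + n) := by
  rw [ray_fwd hq, smul_snd, Bd.smul_apply, inv_inv, mul_inv_cancel_left, hq.2.1]

theorem val_bwd (j : ℤ) (n : ℕ) :
    ((V p j)⁻¹ • q).1.1.1 (ray ((V p j)⁻¹ • q).1.1 n) = inv' (C p (j - n - 1)) := by
  rw [ray_bwd hq, smul_fst, Bd.smul_apply, inv_inv, mul_inv_cancel_left, hq.2.2]

theorem zpow_fix (k : ℤ) : p.g ^ k • q = q := by
  have h : p.g ∈ MulAction.stabilizer (FreeGroup (Fin N)) q := hq.1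
  exact Subgroup.zpow_mem _ h k

theorem Q_per (j k : ℤ) : (V p (j + k * p.m))⁻¹ • q = (V p j)⁻¹ • q := by
  rw [V_add_mul, mul_inv_rev, mul_smul]
  congr 1
  rw [inv_smul_eq_iff, zpow_fix hq]

theorem Q_inj {i j : ℤ} (h : (V p i)⁻¹ • q = (V p j)⁻¹ • q) : ∃ k : ℤ, j = i + k * p.m := by
  obtain ⟨r, l, hr, rfl⟩ := exists_rem p i
  obtain ⟨s, l', hs, rfl⟩ := exists_rem p j
  rw [Q_per hq, Q_per hq] at h
  have : r = s := by
    apply p.prim r hr s hs
    intro t
    have h1 := val_fwd hq r t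
    rw [h, val_fwd hq s t] at h1
    rw [show (s : ℤ) + t = ((s + t : ℕ) : ℤ) by push_cast; ring,
      show (r : ℤ) + t = ((r + t : ℕ) : ℤ) by push_cast; ring, C_nat, C_nat] at h1
    exact h1.symm
  subst this
  exact ⟨l' - l, by ring⟩

theorem Q_ne_flip (i j : ℤ) : (V p i)⁻¹ • q ≠ flip2 ((V p j)⁻¹ • q) := by
  intro h
  have hf : ∀ n : ℕ, C p (i + n) = inv' (C p (j - n - 1)) := by
    intro n
    rw [← val_fwd hq i n, ← val_bwd hq j n, h]
    rfl
  have hb : ∀ n : ℕ, inv' (C p (i - n - 1)) = C p (j + n) := by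
    intro n
    rw [← val_fwd hq j n, ← val_bwd hq i n, h]
    rfl
  have key : ∀ t : ℤ, C p (i + t) = inv' (C p (j - 1 - t)) := by
    intro t
    rcases le_or_gt 0 t with ht | ht
    · obtain ⟨n, rfl⟩ := Int.eq_ofNat_of_zero_le ht
      rw [hf n]
      congr 2
      ring
    · obtain ⟨n, hn⟩ := Int.eq_ofNat_of_zero_le (a := -t - 1) (by omega)
      have ht' : t = -n - 1 := by omega
      subst ht'
      have := hb n
      have h2 := congrArg inv' this
      rw [inv'_inv'] at h2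
      rw [show i + (-(n : ℤ) - 1) = i - n - 1 by ring, h2]
      congr 2
      ring
  have key2 : ∀ s : ℤ, C p s = inv' (C p (i + j - 1 - s)) := by
    intro s
    have := key (s - i)
    rw [show i + (s - i) = s by ring] at this
    rw [this]
    congr 2
    ring
  rcases Int.even_or_odd' (i + j - 1) with ⟨r, hr | hr⟩
  · have := key2 r
    rw [hr, show 2 * r - r = r by ring] at this
    exact inv'_ne _ this.symm
  · have := key2 (r + 1)
    rw [hr, show 2 * r + 1 - (r + 1) = r by ring] at this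
    exact C_red p r this

theorem expo_one : expo p.g = 1 := by
  have hc : Subgroup.centralizer {p.g} = Subgroup.zpowers p.g := by
    apply le_antisymm
    · intro x hx
      rw [Subgroup.mem_centralizer_singleton_iff] at hx
      have hfix : p.g • (x • q) = x • q := by
        rw [← mul_smul, ← hx, mul_smul, hq.1]
      have hU : x • q ∈ U x := by
        have h1 : q ∈ U 1 := (mem_U_iff hq 1).mpr ⟨0, (V_zero p).symm⟩
        have := (smul_mem_U x 1 q).mpr h1
        rwa [mul_one] at this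
      rcases fixed_eq hq hfix with h | h
      · rw [h] at hU
        obtain ⟨j, hj⟩ := (mem_U_iff hq x).mp hU
        have h2 : (V p 0)⁻¹ • q = (V p j)⁻¹ • q := by
          rw [V_zero, inv_one, one_smul, eq_inv_smul_iff, ← hj, h]
        obtain ⟨k, hk⟩ := Q_inj hq h2
        rw [hj, hk, zero_add, V_mul]
        exact Subgroup.zpow_mem_zpowers _ _
      · exfalso
        rw [h] at hU
        have hU' : q ∈ U x := fun h' => hU h'.symm
        obtain ⟨j, hj⟩ := (mem_U_iff hq x).mp hU'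
        have h2 : (V p 0)⁻¹ • q = flip2 ((V p j)⁻¹ • q) := by
          rw [V_zero, inv_one, one_smul]
          have h3 : q = x⁻¹ • flip2 q := by rw [← h, inv_smul_smul]
          rw [← hj]
          exact h3
        exact Q_ne_flip hq 0 j h2
    · rw [Subgroup.zpowers_le, Subgroup.mem_centralizer_singleton_iff]
  unfold expo
  rw [hc, Subgroup.relIndex_self]

theorem ends_iff (r : Bd2 N) : r ∈ Ends p.g ∧ r ∈ U 1 ↔
    ∃ j, r = (V p j)⁻¹ • q ∨ r = flip2 ((V p j)⁻¹ • q) := by
  constructor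
  · rintro ⟨⟨f, hf⟩, hU⟩
    have h1 : p.g • (f⁻¹ • r) = f⁻¹ • r := by
      conv_rhs => rw [← hf]
      rw [← mul_smul, ← mul_smul]
      congr 1
      group
    have h2 : f⁻¹ • r ∈ U f⁻¹ := by
      have := (smul_mem_U f⁻¹ 1 r).mpr hU
      rwa [mul_one] at this
    rcases fixed_eq hq h1 with h | h
    · rw [h] at h2
      obtain ⟨j, hj⟩ := (mem_U_iff hq _).mp h2
      refine ⟨j, Or.inl ?_⟩
      rw [← hj, inv_inv, ← h, smul_inv_smul]
    · rw [h] at h2
      obtain ⟨j, hj⟩ := (mem_U_iff hq _).mp (fun h' => h2 h'.symm : q ∈ U f⁻¹)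
      refine ⟨j, Or.inr ?_⟩
      rw [← hj, inv_inv]
      change r = f • flip2 q
      rw [← h, smul_inv_smul]
  · rintro ⟨j, h⟩
    have h1 : (V p j)⁻¹ • q ∈ Ends p.g := by
      rw [smul_mem_ends]
      exact ⟨1, by rw [one_mul, inv_one, mul_one, hq.1]⟩
    have h2 : (V p j)⁻¹ • q ∈ U 1 := by
      have := (smul_mem_U (V p j)⁻¹ (V p j) q).mpr ((mem_U_iff hq _).mpr ⟨j, rfl⟩)
      rwa [inv_mul_cancel] at this
    rcases h with rfl | rfl
    · exact ⟨h1, h2⟩
    · exact ⟨ends_flip h1, fun h' => h2 h'.symm⟩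

omit hq

theorem t (h : S_PER) : S_ETA := by
  intro N p hg e
  classical
  obtain ⟨hred, -, -, -, -, -, -⟩ := h N p
  obtain ⟨q, hq⟩ := exists_ax p hred
  set n := e.norm with hn
  have h1 : (eta p.g hg).meas (Cyl e) = Measure.count (Cyl e ∩ Ends p.g) := by
    change etaMeas p.g (Cyl e) = _
    unfold etaMeas
    rw [expo_one hq, Nat.cast_one, one_smul, Measure.restrict_apply' (measurableSet_ends hg)]
  set T1 : Finset (Bd2 N) := ((Finset.range p.m).filter fun i => p.el i n = e).image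
    (fun i : ℕ => (V p (i : ℤ))⁻¹ • q) with hT1
  set T2 : Finset (Bd2 N) := ((Finset.range p.m).filter fun i => p.el i n = e⁻¹).image
    (fun i : ℕ => flip2 ((V p ((i : ℤ) + n))⁻¹ • q)) with hT2
  have hfr : ∀ i : ℕ, ray ((V p (i : ℤ))⁻¹ • q).1.2 n = p.el i n := by
    intro i
    rw [ray_fwd hq, V_el, inv_mul_cancel_left]
  have hbr : ∀ i : ℕ, ray (flip2 ((V p ((i : ℤ) + n))⁻¹ • q)).1.2 n = (p.el i n)⁻¹ := by
    intro i
    change ray ((V p ((i : ℤ) + n))⁻¹ • q).1.1 n = _
    rw [ray_bwd hq, add_sub_cancel_right, V_el, mul_inv_rev, inv_mul_cancel_right]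
  have hset : Cyl e ∩ Ends p.g = ((T1 ∪ T2 : Finset (Bd2 N)) : Set (Bd2 N)) := by
    ext r
    rw [Finset.coe_union, Set.mem_union, Finset.mem_coe, Finset.mem_coe, hT1, hT2,
      Finset.mem_image, Finset.mem_image]
    constructor
    · rintro ⟨⟨hU, hr⟩, hE⟩
      obtain ⟨j, hj | hj⟩ := (ends_iff hq r).mp ⟨hE, hU⟩
      · left
        obtain ⟨s, l, hs, rfl⟩ := exists_rem p j
        rw [Q_per hq] at hj
        refine ⟨s, ?_, hj.symm⟩
        rw [Finset.mem_filter, Finset.mem_range]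
        refine ⟨hs, ?_⟩
        rw [← hfr s, ← hj]
        exact hr
      · right
        obtain ⟨s, l, hs, hsl⟩ := exists_rem p (j - n)
        have hj' : j = (s : ℤ) + n + l * p.m := by linarith
        rw [hj', Q_per hq] at hj
        refine ⟨s, ?_, hj.symm⟩
        rw [Finset.mem_filter, Finset.mem_range]
        refine ⟨hs, ?_⟩
        rw [← inv_inj, inv_inv, ← hbr s, ← hj]
        exact hr
    · rintro (⟨i, hi, rfl⟩ | ⟨i, hi, rfl⟩)
      · obtain ⟨h2, h3⟩ := (ends_iff hq _).mpr ⟨(i : ℤ), Or.inl rfl⟩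
        refine ⟨⟨h3, ?_⟩, h2⟩
        rw [Finset.mem_filter] at hi
        rw [← hn, hfr i]
        exact hi.2
      · obtain ⟨h2, h3⟩ := (ends_iff hq _).mpr ⟨(i : ℤ) + n, Or.inr rfl⟩
        refine ⟨⟨h3, ?_⟩, h2⟩
        rw [Finset.mem_filter] at hi
        rw [← hn, hbr i, hi.2, inv_inv]
  have hcong : ∀ i < p.m, ∀ j < p.m, (∃ k : ℤ, (j : ℤ) = i + k * p.m) → i = j := by
    rintro i hi j hj ⟨k, hk⟩
    have hm := mpos p
    have hi' : (i : ℤ) < p.m := by exact_mod_cast hi
    have hj' : (j : ℤ) < p.m := by exact_mod_cast hj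
    have h0 : k = 0 := by
      by_contra hk0
      rcases lt_or_gt_of_ne hk0 with h2 | h2
      · have : k * (p.m : ℤ) ≤ -1 * p.m := mul_le_mul_of_nonneg_right (by omega) hm.le
        omega
      · have : 1 * (p.m : ℤ) ≤ k * p.m := mul_le_mul_of_nonneg_right (by omega) hm.le
        omega
    rw [h0, zero_mul, add_zero] at hk
    exact_mod_cast hk.symm
  have hc1 : T1.card = ((Finset.range p.m).filter fun i => p.el i n = e).card := by
    apply Finset.card_image_of_injOn
    intro i hi j hj hij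
    rw [Finset.mem_coe, Finset.mem_filter, Finset.mem_range] at hi hj
    exact hcong i hi.1 j hj.1 (Q_inj hq hij)
  have hc2 : T2.card = ((Finset.range p.m).filter fun i => p.el i n = e⁻¹).card := by
    apply Finset.card_image_of_injOn
    intro i hi j hj hij
    rw [Finset.mem_coe, Finset.mem_filter, Finset.mem_range] at hi hj
    have hij' : (V p ((i : ℤ) + n))⁻¹ • q = (V p ((j : ℤ) + n))⁻¹ • q := congrArg flip2 hij
    obtain ⟨k, hk⟩ := Q_inj hq hij'
    exact hcong i hi.1 j hj.1 ⟨k, by linarith⟩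
  have hdis : Disjoint T1 T2 := by
    rw [Finset.disjoint_left]
    intro r hr1 hr2
    rw [hT1, Finset.mem_image] at hr1
    rw [hT2, Finset.mem_image] at hr2
    obtain ⟨i, -, rfl⟩ := hr1
    obtain ⟨j, -, hj⟩ := hr2
    exact Q_ne_flip hq _ _ hj.symm
  rw [h1, hset, Measure.count_apply_finset, Finset.card_union_of_disjoint hdis, hc1, hc2]

end Pool.Agent.N697.PSC.ETA
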